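import Pool.Agent.Lib.MP_0256c3_gt.Defs

/-!
Spaces with a `k`-ary closed subbase do not carry a generic system of `k + 1` clopen families.
-/

open Set Filter Topology

namespace Pool.Agent.Lib.MP_0256c3_gt

universe u

variable {S : Type u} [TopologicalSpace S] {P : Set (Set S)} {k : ℕ}

omit [TopologicalSpace S] in
theorem IsAry.mono {k' : ℕ} (h : IsAry k P) (hk : k ≤ k') : IsAry k' P :=
  fun L hL hF => h L hL fun F h1 h2 => hF F h1 (h2.trans (by exact_mod_cast hk))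

theorem compactSpace_of_ary (hP : IsClosedSubbase P) (hB : IsAry k P) : CompactSpace S := by
  refine ⟨isCompact_iff_ultrafilter_le_nhds.2 fun f _ => ?_⟩
  obtain ⟨x, hx⟩ := hB {A | A ∈ P ∧ A ∈ f} (fun A hA => hA.1) fun F hF hk =>
    f.nonempty_of_mem ((sInter_mem (finite_of_encard_le_coe hk)).2 fun A hA => (hF hA).2)
  refine ⟨x, mem_univ _, fun V hV => ?_⟩
  obtain ⟨W, hWV, hW, hxW⟩ := mem_nhds_iff.1 hV
  refine mem_of_superset ?_ hWV
  obtain ⟨𝓕, h𝓕, hC⟩ := hP.2 Wᶜ hW.isClosed_compl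
  by_contra hWf
  have hc : Wᶜ ∈ f := Ultrafilter.compl_mem_iff_notMem.2 hWf
  have : x ∈ Wᶜ := by
    rw [hC]
    refine mem_iInter₂.2 fun F hF => ?_
    have hU : ⋃₀ F ∈ f := by
      refine mem_of_superset hc ?_
      rw [hC]
      exact biInter_subset_of_mem hF
    obtain ⟨A, hAF, hA⟩ := (Ultrafilter.finite_sUnion_mem_iff (h𝓕 F hF).1).1 hU
    exact ⟨A, hAF, hx A ⟨(h𝓕 F hF).2 hAF, hA⟩⟩
  exact this hxW

/-- Intersections of subfamilies of `P`. -/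
def Conv (P : Set (Set S)) (Q : Set S) : Prop := ∃ L : Set (Set S), L ⊆ P ∧ Q = ⋂₀ L

omit [TopologicalSpace S] in
theorem helly (hB : IsAry k P) {ι : Type} [Fintype ι] (hι : k < Fintype.card ι) {Q : ι → Set S}
    (hQ : ∀ i, Conv P (Q i)) (h : ∀ i₀, ∃ s, ∀ i, i ≠ i₀ → s ∈ Q i) : ∃ s, ∀ i, s ∈ Q i := by
  classical
  choose L hL hQL using hQ
  obtain ⟨s, hs⟩ := hB (⋃ i, L i) (iUnion_subset hL) fun F hF hk => by
    have h1 : ∀ A : F, ∃ i, A.1 ∈ L i := fun A => mem_iUnion.1 (hF A.2)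
    choose o ho using h1
    have h2 : ¬ Function.Surjective o := fun h2 => by
      have h3 : (Fintype.card ι : ℕ∞) ≤ k := by
        refine le_trans ?_ hk
        rw [← ENat.card_eq_coe_fintype_card, encard]
        exact ENat.card_le_card_of_injective (Function.injective_surjInv h2)
      exact absurd (by exact_mod_cast h3) (not_le.2 hι)
    obtain ⟨i₀, hi₀⟩ := not_forall.1 h2
    obtain ⟨s, hs⟩ := h i₀
    refine ⟨s, fun A hA => ?_⟩
    have h4 := hs (o ⟨A, hA⟩) fun h5 => hi₀ ⟨_, h5⟩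
    rw [hQL] at h4
    exact h4 A (ho ⟨A, hA⟩)
  exact ⟨s, fun i => hQL i ▸ fun A hA => hs A (mem_iUnion.2 ⟨i, hA⟩)⟩

omit [TopologicalSpace S] in
theorem helly' (hB : IsAry (k + 1) P) {Q : Fin (k + 1) → Set S} {R : Set S}
    (hQ : ∀ i, Conv P (Q i)) (hR : Conv P R) (h₀ : ∃ s, ∀ i, s ∈ Q i)
    (h : ∀ i₀ : Fin (k + 1), ∃ s ∈ R, ∀ j, s ∈ Q (i₀.succAbove j)) : ∃ s ∈ R, ∀ i, s ∈ Q i := by
  obtain ⟨s, hs⟩ := helly hB (ι := Option (Fin (k + 1))) (by simp) (Q := fun o => o.elim R Q)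
    (by rintro (_ | i); exacts [hR, hQ i]) (by
      rintro (_ | i₀)
      · obtain ⟨s, hs⟩ := h₀
        exact ⟨s, by rintro (_ | i) hi; exacts [absurd rfl hi, hs i]⟩
      · obtain ⟨s, h1, h2⟩ := h i₀
        refine ⟨s, ?_⟩
        rintro (_ | i) hi
        · exact h1
        · obtain ⟨j, rfl⟩ := Fin.exists_succAbove_eq (x := i) (y := i₀) fun h3 => hi (by rw [h3])
          exact h2 j)
  exact ⟨s, hs none, fun i => hs (some i)⟩

theorem clopen_decomp [CompactSpace S] (hP : IsClosedSubbase P) {U : Set S} (hU : IsClopen U) :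
    ∃ (n : ℕ) (Q : ℕ → Set S), (∀ i, Conv P (Q i)) ∧ ∀ s, s ∈ U ↔ ∃ i < n, s ∈ Q i := by
  classical
  obtain ⟨𝓕, h𝓕, hC⟩ := hP.2 U hU.isClosed
  have hcomp : IsCompact Uᶜ := hU.isOpen.isClosed_compl.isCompact
  have hcov : Uᶜ ⊆ ⋃ F ∈ 𝓕, (⋃₀ F)ᶜ := by
    intro s hs
    rw [hC] at hs
    simpa [mem_iInter] using hs
  obtain ⟨𝓖, h𝓖, h𝓖fin, hcov'⟩ := hcomp.elim_finite_subcover_image
    (c := fun F : Set (Set S) => (⋃₀ F)ᶜ) (fun F hF => by
      rw [isOpen_compl_iff, sUnion_eq_biUnion]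
      exact (h𝓕 F hF).1.isClosed_biUnion fun A hA => hP.1 A ((h𝓕 F hF).2 hA)) hcov
  have h𝒜 : (⋃₀ 𝓖).Finite := h𝓖fin.sUnion fun F hF => (h𝓕 F (h𝓖 hF)).1
  have h𝒜P : ⋃₀ 𝓖 ⊆ P := sUnion_subset fun F hF => (h𝓕 F (h𝓖 hF)).2
  have hT : {τ : Set (Set S) | τ ⊆ ⋃₀ 𝓖 ∧ ⋂₀ τ ⊆ U}.Finite :=
    h𝒜.finite_subsets.subset fun τ hτ => hτ.1
  set l := hT.toFinset.toList with hl
  have hmem : ∀ τ, τ ∈ l ↔ τ ⊆ ⋃₀ 𝓖 ∧ ⋂₀ τ ⊆ U := by
    intro τ
    simp [hl]
  refine ⟨l.length, fun i => ⋂₀ (l.getD i ∅), fun i => ⟨_, ?_, rfl⟩, fun s => ⟨fun hs => ?_, ?_⟩⟩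
  · by_cases hi : i < l.length
    · rw [List.getD_eq_getElem _ _ hi]
      exact ((hmem _).1 (List.getElem_mem hi)).1.trans h𝒜P
    · rw [List.getD_eq_default _ _ (not_lt.1 hi)]
      exact empty_subset _
  · have hτ : {A | A ∈ ⋃₀ 𝓖 ∧ s ∈ A} ∈ l := by
      refine (hmem _).2 ⟨fun A hA => hA.1, fun t ht => ?_⟩
      by_contra htU
      obtain ⟨F, hF, htF⟩ := mem_iUnion₂.1 (hcov' htU)
      have hsF : s ∈ ⋃₀ F := by
        have := hs
        rw [hC] at this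
        exact mem_iInter₂.1 this F (h𝓖 hF)
      obtain ⟨A, hAF, hsA⟩ := hsF
      exact htF ⟨A, hAF, ht A ⟨⟨F, hF, hAF⟩, hsA⟩⟩
    obtain ⟨i, hi, hie⟩ := List.getElem_of_mem hτ
    refine ⟨i, hi, ?_⟩
    beta_reduce
    rw [List.getD_eq_getElem _ _ hi, hie]
    exact fun A hA => hA.2
  · rintro ⟨i, hi, hs⟩
    beta_reduce at hs
    rw [List.getD_eq_getElem _ _ hi] at hs
    exact ((hmem _).1 (List.getElem_mem hi)).2 hs

/-- The counting step: patterns of bounded type do not exhaust all subsets of a large grid. -/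
theorem exists_pattern (k l n : ℕ)
    (Φ : (Fin l × Fin (k + 1) × (Fin k → Fin (l * (k + 1) * n ^ k + 1) × Fin n) → Prop) →
      ((Fin (k + 1) → Fin (l * (k + 1) * n ^ k + 1)) → Prop)) : ∃ τ, ∀ D, Φ D ≠ τ := by
  classical
  by_contra h
  push Not at h
  have hle := Fintype.card_le_of_surjective Φ h
  simp only [Fintype.card_prod, Fintype.card_fun, Fintype.card_prop, Fintype.card_fin] at hle
  rw [Nat.pow_le_pow_iff_right (by norm_num), mul_pow, pow_succ] at hle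
  have h1 : 0 < (l * (k + 1) * n ^ k + 1) ^ k := by positivity
  nlinarith

/-- The combinatorial core. -/
theorem no_clopen_system (hP : IsClosedSubbase P) (hB : IsAry (k + 1) P) {X : Type}
    [Uncountable X] (U : Fin (k + 1) → X → Set S) (W : Set (Fin (k + 1) → X) → Set S)
    (hU : ∀ i x, IsClopen (U i x)) (hW : ∀ z, IsClopen (W z))
    (h : ∀ x z, (∃ s ∈ W z, ∀ i, s ∈ U i (x i)) ↔ x ∈ z) : False := by
  classical
  have := compactSpace_of_ary hP hB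
  choose nU QU hQU hU' using fun i x => clopen_decomp hP (hU i x)
  choose nW QW hQW hW' using fun z => clopen_decomp hP (hW z)
  have key : ∀ x z, x ∈ z ↔ ∃ l < nW z, ∃ a : Fin (k + 1) → ℕ, (∀ i, a i < nU i (x i)) ∧
      (∃ s, ∀ i, s ∈ QU i (x i) (a i)) ∧ ∀ i₀ : Fin (k + 1), ∃ s ∈ QW z l,
        ∀ j, s ∈ QU (i₀.succAbove j) (x (i₀.succAbove j)) (a (i₀.succAbove j)) := by
    intro x z
    rw [← h]
    constructor
    · rintro ⟨s, h1, h2⟩
      obtain ⟨l, hl, hsl⟩ := (hW' z s).1 h1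
      choose a ha hsa using fun i => (hU' i (x i) s).1 (h2 i)
      exact ⟨l, hl, a, ha, ⟨s, hsa⟩, fun i₀ => ⟨s, hsl, fun j => hsa _⟩⟩
    · rintro ⟨l, hl, a, ha, h1, h2⟩
      obtain ⟨s, h3, h4⟩ := helly' hB (fun i => hQU i (x i) (a i)) (hQW z l) h1 h2
      exact ⟨s, (hW' z s).2 ⟨l, hl, h3⟩, fun i => (hU' i _ s).2 ⟨_, ha i, h4 i⟩⟩
  obtain ⟨n, hn⟩ : ∃ n, {x | ∑ i, nU i x = n}.Infinite := by
    by_contra hfin
    push Not at hfin
    have : (univ : Set X).Countable := by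
      have hun : (univ : Set X) = ⋃ n, {x | ∑ i, nU i x = n} := by
        ext x
        simp
      rw [hun]
      exact countable_iUnion fun n => (hfin n).countable
    exact not_countable_univ this
  let g : ℕ × ℕ → X := fun p => (hn.natEmbedding _ (Nat.pair p.1 p.2) : X)
  have hg : Function.Injective g := by
    intro p q hpq
    have := (hn.natEmbedding _).injective (Subtype.ext hpq)
    exact Prod.ext (Nat.pair_eq_pair.1 this).1 (Nat.pair_eq_pair.1 this).2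
  have hgn : ∀ i p, nU i (g p) ≤ n := fun i p =>
    (Finset.single_le_sum (f := fun i => nU i (g p)) (fun _ _ => Nat.zero_le _)
      (Finset.mem_univ i)).trans (hn.natEmbedding _ (Nat.pair p.1 p.2)).2.le
  choose τ hτ using fun l => exists_pattern k l n (fun D p =>
    ∃ (l' : Fin l) (a : Fin (k + 1) → Fin n), (∀ i, (a i : ℕ) < nU i (g (l, p i))) ∧
      (∃ s, ∀ i, s ∈ QU i (g (l, p i)) (a i)) ∧
        ∀ i₀, D (l', i₀, fun j => (p (i₀.succAbove j), a (i₀.succAbove j))))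
  let z : Set (Fin (k + 1) → X) := {x | ∃ (l : ℕ) (p : Fin (k + 1) → Fin (l * (k + 1) * n ^ k + 1)),
    x = (fun i => g (l, p i)) ∧ τ l p}
  have hz : ∀ (l : ℕ) (p : Fin (k + 1) → Fin (l * (k + 1) * n ^ k + 1)),
      (fun i => g (l, p i)) ∈ z ↔ τ l p := by
    intro l p
    refine ⟨?_, fun hp => ⟨l, p, rfl, hp⟩⟩
    rintro ⟨l', p', he, hp'⟩
    have h₁ := fun i => hg (congrFun he i)
    obtain rfl : l = l' := congrArg Prod.fst (h₁ 0)
    have : p = p' := funext fun i => Fin.ext (congrArg Prod.snd (h₁ i))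
    exact this ▸ hp'
  refine hτ (nW z) (fun q => ∃ s ∈ QW z q.1,
    ∀ j, s ∈ QU (q.2.1.succAbove j) (g (nW z, (q.2.2 j).1)) (q.2.2 j).2) ?_
  funext p
  rw [← propext (hz (nW z) p), propext (key _ _)]
  refine propext ⟨?_, ?_⟩
  · rintro ⟨l, a, h₁, h₂, h₃⟩
    exact ⟨l, l.2, fun i => a i, h₁, h₂, h₃⟩
  · rintro ⟨l, hl, a, h₁, h₂, h₃⟩
    exact ⟨⟨l, hl⟩, fun i => ⟨a i, (h₁ i).trans_le (hgn i _)⟩, h₁, h₂, h₃⟩

end Pool.Agent.Lib.MP_0256c3_gt
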