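import Pool.Agent.Lib.MP_0256c3_gt.Core

/-!
Closed subspaces of a Cantor cube given by forbidden finite sets of coordinates: compactness,
an upper bound for the compactness number, and weak embeddings in a Hilbert space.
-/

open Set Filter Topology

namespace Pool.Agent.Lib.MP_0256c3_gt

universe u

variable {Γ : Type}

/-- Points of the Cantor cube whose support contains no member of `B`. -/
def Avoid (B : Set (Set Γ)) : Set (Γ → Bool) := {s | ∀ T ∈ B, ¬ ∀ γ ∈ T, s γ = true}

theorem isClopen_coord (γ : Γ) (b : Bool) : IsClopen {s : Γ → Bool | s γ = b} :=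
  (isClopen_discrete {b}).preimage (continuous_apply γ)

theorem isClosed_avoid {B : Set (Set Γ)} (hB : ∀ T ∈ B, T.Finite) : IsClosed (Avoid B) := by
  have : Avoid B = ⋂ T ∈ B, (⋂ γ ∈ T, {s : Γ → Bool | s γ = true})ᶜ := by
    ext s
    simp [Avoid]
  rw [this]
  exact isClosed_biInter fun T hT =>
    ((hB T hT).isOpen_biInter fun γ _ => (isClopen_coord γ true).isOpen).isClosed_compl

/-- The coordinate subbase. -/
def coordBase (A : Set (Γ → Bool)) : Set (Set A) := {C | ∃ γ b, C = {s : A | s.1 γ = b}}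

theorem isClosedSubbase_coordBase (A : Set (Γ → Bool)) : IsClosedSubbase (coordBase A) := by
  refine ⟨?_, fun C hC => ⟨{F | (F.Finite ∧ F ⊆ coordBase A) ∧ C ⊆ ⋃₀ F}, fun F hF => hF.1, ?_⟩⟩
  · rintro _ ⟨γ, b, rfl⟩
    exact ((isClopen_coord γ b).preimage continuous_subtype_val).isClosed
  refine Subset.antisymm (subset_iInter₂ fun F hF => hF.2) fun s hs => ?_
  by_contra hsC
  obtain ⟨V, hV, hVC⟩ := (mem_nhds_subtype A s Cᶜ).1 (hC.isOpen_compl.mem_nhds hsC)
  rw [nhds_pi, Filter.mem_pi] at hV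
  obtain ⟨I, hI, t, ht, htV⟩ := hV
  have h1 := mem_iInter₂.1 hs ((fun γ => {r : A | r.1 γ = !s.1 γ}) '' I)
    ⟨⟨hI.image _, by rintro _ ⟨γ, -, rfl⟩; exact ⟨γ, _, rfl⟩⟩, fun r hr => by
      by_contra h2
      refine hVC (htV fun γ hγ => ?_) hr
      have h3 : r.1 γ = s.1 γ := by
        by_contra h3
        exact h2 ⟨_, ⟨γ, hγ, rfl⟩, Bool.eq_not_of_ne h3⟩
      rw [h3]
      exact mem_of_mem_nhds (ht γ)⟩
  obtain ⟨_, ⟨γ, -, rfl⟩, h2⟩ := h1
  simp at h2

theorem isAry_coordBase {B : Set (Set Γ)} {n : ℕ} (hn : 2 ≤ n) (hB : ∀ T ∈ B, T.encard ≤ n) :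
    IsAry n (coordBase (Avoid B)) := by
  classical
  intro L hL hF
  refine ⟨⟨fun γ => decide ({t : Avoid B | t.1 γ = true} ∈ L), fun T hT h => ?_⟩, fun A hA => ?_⟩
  · obtain ⟨t, ht⟩ := hF ((fun γ => {t : Avoid B | t.1 γ = true}) '' T)
      (by rintro _ ⟨γ, hγ, rfl⟩; exact of_decide_eq_true (h γ hγ))
      ((encard_image_le _ _).trans (hB T hT))
    exact t.2 T hT fun γ hγ => ht _ ⟨γ, hγ, rfl⟩
  · obtain ⟨γ, b, rfl⟩ := hL hA
    cases b with
    | true => exact decide_eq_true hA
    | false =>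
      refine decide_eq_false fun h => ?_
      obtain ⟨t, ht⟩ := hF {{t : Avoid B | t.1 γ = true}, {t : Avoid B | t.1 γ = false}}
        (by rintro _ (rfl | rfl); exacts [h, hA])
        ((encard_insert_le _ _).trans (by rw [encard_singleton]; exact_mod_cast hn))
      have h1 : t.1 γ = true := ht _ (Or.inl rfl)
      have h2 : t.1 γ = false := ht _ (Or.inr rfl)
      simp [h1] at h2

theorem cmpn_le {X : Type u} [TopologicalSpace X] {P : Set (Set X)} {n : ℕ}
    (hP : IsClosedSubbase P) (hn : IsAry n P) : cmpn X ≤ n :=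
  iInf₂_le_of_le n ⟨P, hP, hn⟩ le_rfl

theorem continuous_inner_of_bdd {K : Type} [TopologicalSpace K] (e : K → lp (fun _ : Γ => ℝ) 2)
    (hb : ∀ s, ‖e s‖ ≤ 1) (hc : ∀ γ, Continuous fun s => e s γ) (v : lp (fun _ : Γ => ℝ) 2) :
    Continuous fun s => inner ℝ v (e s) := by
  classical
  have hs := lp.hasSum_single (by norm_num : (2 : ENNReal) ≠ ⊤) v
  refine TendstoUniformly.continuous (p := atTop) (F := fun (F : Finset Γ) s =>
    inner ℝ (∑ γ ∈ F, (lp.single 2 γ (v γ) : lp (fun _ : Γ => ℝ) 2)) (e s)) ?_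
    (Frequently.of_forall fun F => ?_)
  · refine Metric.tendstoUniformly_iff.2 fun ε hε => (Metric.tendsto_nhds.1 hs ε hε).mono ?_
    intro F hF s
    rw [dist_eq_norm, ← inner_sub_left]
    rw [dist_comm, dist_eq_norm] at hF
    refine (norm_inner_le_norm _ _).trans_lt ?_
    exact (mul_le_of_le_one_right (norm_nonneg _) (hb s)).trans_lt hF
  · simp only [sum_inner, lp.inner_single_left]
    exact continuous_finsetSum _ fun γ _ => continuous_const.inner (hc γ)

theorem isUniformEberlein_of_weights {A : Set (Γ → Bool)} (hA : IsClosed A) (w : Γ → ℝ)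
    (hw : ∀ γ, w γ ≠ 0)
    (h : ∀ s ∈ A, ∀ T : Finset Γ, (∀ γ ∈ T, s γ = true) → ∑ γ ∈ T, w γ ^ 2 ≤ 1) :
    IsUniformEberlein A := by
  classical
  have : CompactSpace A := isCompact_iff_compactSpace.1 hA.isCompact
  have h1 : ∀ (s : A) (T : Finset Γ),
      ∑ γ ∈ T, ‖(if s.1 γ = true then w γ else 0)‖ ^ (2 : ENNReal).toReal ≤ 1 := by
    intro s T
    refine le_trans (le_of_eq ?_) (h s.1 s.2 (T.filter fun γ => s.1 γ = true) (by simp))
    rw [Finset.sum_filter]
    refine Finset.sum_congr rfl fun γ _ => ?_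
    split_ifs <;> simp
  let e : A → lp (fun _ : Γ => ℝ) 2 := fun s =>
    ⟨fun γ => if s.1 γ = true then w γ else 0, memℓp_gen' (h1 s)⟩
  have hb : ∀ s, ‖e s‖ ≤ 1 := fun s =>
    lp.norm_le_of_forall_sum_le (by norm_num) zero_le_one fun T => by
      rw [Real.one_rpow]
      exact h1 s T
  have hc : ∀ γ, Continuous fun s => e s γ := fun γ =>
    (continuous_of_discreteTopology (f := fun b : Bool => if b = true then w γ else 0)).comp
      ((continuous_apply γ).comp continuous_subtype_val)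
  let F : A → WeakSpace ℝ (lp (fun _ : Γ => ℝ) 2) := fun s => toWeakSpace ℝ _ (e s)
  have hF : Continuous F := by
    refine WeakBilin.continuous_of_continuous_eval _ fun φ => ?_
    change Continuous fun s => φ (e s)
    obtain ⟨v, rfl⟩ := (InnerProductSpace.toDual ℝ (lp (fun _ : Γ => ℝ) 2)).surjective φ
    exact continuous_inner_of_bdd e hb hc v
  have hinj : Function.Injective F := fun s t hst => by
    have h2 : e s = e t := (toWeakSpace ℝ _).injective hst
    refine Subtype.ext (funext fun γ => ?_)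
    have h3 : (if s.1 γ = true then w γ else 0) = if t.1 γ = true then w γ else 0 :=
      congrArg (fun x : lp (fun _ : Γ => ℝ) 2 => x γ) h2
    have h4 := hw γ
    cases h5 : s.1 γ <;> cases h6 : t.1 γ <;> simp_all
  exact ⟨lp (fun _ : Γ => ℝ) 2, inferInstance, inferInstance, inferInstance, range F,
    isCompact_range hF, ⟨(hF.isClosedEmbedding hinj).isEmbedding.toHomeomorph⟩⟩

end Pool.Agent.Lib.MP_0256c3_gt
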