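import Mathlib

/-!
Compactness numbers and uniform Eberlein compacta: the definitions used in the statement.
-/

open Set

namespace Pool.Agent.Lib.MP_0256c3_gt

universe u

/-- `P` is a closed subbase: a family of closed sets such that every closed set is an
intersection of finite unions of members of `P`. -/
def IsClosedSubbase {X : Type u} [TopologicalSpace X] (P : Set (Set X)) : Prop :=
  (∀ A ∈ P, IsClosed A) ∧
    ∀ C : Set X, IsClosed C →
      ∃ 𝓕 : Set (Set (Set X)), (∀ F ∈ 𝓕, F.Finite ∧ F ⊆ P) ∧ C = ⋂ F ∈ 𝓕, ⋃₀ F

/-- `P` is `k`-ary: a subfamily has a common point as soon as any at most `k` of its members have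
a common point. Binary means `2`-ary. -/
def IsAry {X : Type u} (k : ℕ) (P : Set (Set X)) : Prop :=
  ∀ L : Set (Set X), L ⊆ P → (∀ F : Set (Set X), F ⊆ L → F.encard ≤ k → (⋂₀ F).Nonempty) →
    (⋂₀ L).Nonempty

/-- The compactness number: the least `k` such that there is a `k`-ary closed subbase, infinite
if there is none. Supercompact means compactness number at most two. -/
noncomputable def cmpn (X : Type u) [TopologicalSpace X] : ℕ∞ :=
  ⨅ (k : ℕ) (_ : ∃ P : Set (Set X), IsClosedSubbase P ∧ IsAry k P), (k : ℕ∞)

/-- `P` is binary: every linked subfamily has nonempty intersection. -/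
def IsBinary {X : Type u} (P : Set (Set X)) : Prop :=
  ∀ L : Set (Set X), L ⊆ P → (∀ A ∈ L, ∀ B ∈ L, (A ∩ B).Nonempty) → (⋂₀ L).Nonempty

/-- `K` is superadic: a continuous image of a Hausdorff space (in the universe `u`) with a binary
closed subbase. -/
def IsSuperadic (K : Type) [TopologicalSpace K] : Prop :=
  ∃ (S : Type u) (_ : TopologicalSpace S), T2Space S ∧
    (∃ P : Set (Set S), IsClosedSubbase P ∧ IsBinary P) ∧
      ∃ f : S → K, Continuous f ∧ Function.Surjective f

/-- `K` is uniform Eberlein compact: homeomorphic to a subset of a Hilbert space that is compact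
in the weak topology (the subset carries the weak topology). -/
def IsUniformEberlein (K : Type) [TopologicalSpace K] : Prop :=
  ∃ (E : Type) (_ : NormedAddCommGroup E) (_ : InnerProductSpace ℝ E),
    CompleteSpace E ∧ ∃ A : Set (WeakSpace ℝ E), IsCompact A ∧ Nonempty (K ≃ₜ A)

end Pool.Agent.Lib.MP_0256c3_gt
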