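import Pool.Agent.Lib.MP_0256c3_gt.Cube

/-!
The examples: uniform Eberlein compacta all of whose continuous preimages have large
compactness number.
-/

open Set Filter Topology

namespace Pool.Agent.Lib.MP_0256c3_gt

universe u

/-- Coordinates: at level `k` there are `k` slots holding a real number and one slot holding a set
of `k`-tuples. -/
inductive G : Type
  | pt (k : ℕ) (i : Fin k) (x : ℝ) : G
  | st (k : ℕ) (z : Set (Fin k → ℝ)) : G

/-- The level of a coordinate. -/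
def G.lev : G → ℕ
  | .pt k _ _ => k
  | .st k _ => k

/-- The slot of a coordinate. -/
def G.slot : G → ℕ
  | .pt _ i _ => i
  | .st k _ => k

theorem G.slot_le : ∀ γ : G, γ.slot ≤ γ.lev
  | .pt _ i _ => i.2.le
  | .st _ _ => le_rfl

/-- A full tuple of coordinates. -/
def tup (k : ℕ) (x : Fin k → ℝ) (z : Set (Fin k → ℝ)) : Set G :=
  insert (.st k z) (range fun i => .pt k i (x i))

/-- The forbidden sets of coordinates. -/
def Bad (c : ℕ∞) : Set (Set G) :=
  {T | (∃ γ : G, c < γ.lev + 1 ∧ T = {γ}) ∨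
    (∃ γ δ : G, (γ.lev ≠ δ.lev ∨ γ.slot = δ.slot ∧ γ ≠ δ) ∧ T = {γ, δ}) ∨
    ∃ (k : ℕ) (x : Fin k → ℝ) (z : Set (Fin k → ℝ)), (k : ℕ∞) + 1 ≤ c ∧ x ∉ z ∧ T = tup k x z}

theorem bad_finite (c : ℕ∞) : ∀ T ∈ Bad c, T.Finite := by
  rintro T (⟨γ, -, rfl⟩ | ⟨γ, δ, -, rfl⟩ | ⟨k, x, z, -, -, rfl⟩)
  · exact finite_singleton _
  · exact (finite_singleton _).insert _
  · exact (finite_range _).insert _

theorem bad_encard {c : ℕ∞} (hc : 2 ≤ c) : ∀ T ∈ Bad c, T.encard ≤ c := by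
  rintro T (⟨γ, -, rfl⟩ | ⟨γ, δ, -, rfl⟩ | ⟨k, x, z, hk, -, rfl⟩)
  · rw [encard_singleton]
    exact one_le_two.trans hc
  · refine (encard_insert_le _ _).trans ?_
    rw [encard_singleton]
    exact hc
  · refine (encard_insert_le _ _).trans (le_trans ?_ hk)
    gcongr
    rw [← image_univ]
    refine (encard_image_le _ _).trans ?_
    simp

theorem cmpn_avoid_le {c : ℕ∞} (hc : 2 ≤ c) : cmpn (Avoid (Bad c)) ≤ c := by
  induction c using ENat.recTopCoe with
  | top => exact le_top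
  | coe n =>
    exact cmpn_le (isClosedSubbase_coordBase _)
      (isAry_coordBase (by exact_mod_cast hc) (bad_encard hc))

theorem isUniformEberlein_avoid (c : ℕ∞) : IsUniformEberlein (Avoid (Bad c)) := by
  classical
  refine isUniformEberlein_of_weights (isClosed_avoid (bad_finite c))
    (fun γ => ((γ.lev : ℝ) + 1)⁻¹) (fun γ => by positivity) fun s hs T hT => ?_
  rcases T.eq_empty_or_nonempty with rfl | ⟨γ₀, h₀⟩
  · simp
  have h1 : ∀ γ ∈ T, ∀ δ ∈ T, γ.lev = δ.lev ∧ (γ.slot = δ.slot → γ = δ) := by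
    intro γ hγ δ hδ
    by_contra h
    refine hs {γ, δ} (Or.inr (Or.inl ⟨γ, δ, by tauto, rfl⟩)) ?_
    rintro _ (rfl | rfl)
    exacts [hT _ hγ, hT _ hδ]
  have h2 : T.card ≤ γ₀.lev + 1 := by
    rw [← Finset.card_range (γ₀.lev + 1)]
    refine Finset.card_le_card_of_injOn G.slot (fun γ hγ => ?_)
      fun γ hγ δ hδ h => (h1 γ hγ δ hδ).2 h
    have h3 := γ.slot_le
    rw [(h1 γ hγ γ₀ h₀).1] at h3
    simpa [Nat.lt_succ_iff] using h3
  rw [Finset.sum_congr rfl (g := fun _ => ((γ₀.lev : ℝ) + 1)⁻¹ ^ 2)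
    fun γ hγ => by rw [(h1 γ hγ γ₀ h₀).1], Finset.sum_const, nsmul_eq_mul]
  have h3 : (T.card : ℝ) ≤ γ₀.lev + 1 := by exact_mod_cast h2
  have h4 : (0 : ℝ) ≤ γ₀.lev := by positivity
  rw [inv_pow, mul_inv_le_iff₀ (by positivity)]
  nlinarith

theorem tup_mem {c : ℕ∞} {k : ℕ} (hk : (k : ℕ∞) + 1 ≤ c) {x : Fin k → ℝ} {z : Set (Fin k → ℝ)}
    (hx : x ∈ z) [DecidablePred (· ∈ tup k x z)] :
    (fun γ => decide (γ ∈ tup k x z)) ∈ Avoid (Bad c) := by
  have h1 : ∀ γ ∈ tup k x z, γ.lev = k := by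
    rintro _ (rfl | ⟨i, rfl⟩) <;> rfl
  have h2 : ∀ γ ∈ tup k x z, ∀ δ ∈ tup k x z, γ.slot = δ.slot → γ = δ := by
    rintro _ (rfl | ⟨i, rfl⟩) _ (rfl | ⟨j, rfl⟩) h
    · rfl
    · exact absurd h j.2.ne'
    · exact absurd h i.2.ne
    · obtain rfl : i = j := Fin.ext h
      rfl
  rintro T (⟨γ, hγ, rfl⟩ | ⟨γ, δ, hγ, rfl⟩ | ⟨k', x', z', -, hx', rfl⟩) h
  · rw [h1 γ (of_decide_eq_true (h γ rfl))] at hγ
    exact absurd hk (not_le.2 hγ)
  · have h3 := of_decide_eq_true (h γ (Or.inl rfl))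
    have h4 := of_decide_eq_true (h δ (Or.inr rfl))
    rcases hγ with h5 | h5
    · exact h5 ((h1 γ h3).trans (h1 δ h4).symm)
    · exact h5.2 (h2 γ h3 δ h4 h5.1)
  · have h3 := of_decide_eq_true (h _ (Or.inl rfl))
    obtain rfl : k' = k := h1 _ h3
    have h4 : G.st k' z' = G.st k' z := h2 _ h3 _ (Or.inl rfl) rfl
    have h5 : x' = x := funext fun i => by
      have h6 : G.pt k' i (x' i) = G.pt k' i (x i) :=
        h2 _ (of_decide_eq_true (h _ (Or.inr ⟨i, rfl⟩))) _ (Or.inr ⟨i, rfl⟩) rfl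
      simpa using h6
    obtain rfl : z' = z := by simpa using h4
    exact hx' (h5 ▸ hx)

theorem le_cmpn_of_surjective {c : ℕ∞} (hc : 2 ≤ c) {S : Type u} [TopologicalSpace S]
    {f : S → Avoid (Bad c)} (hf : Continuous f) (hs : Function.Surjective f) : c ≤ cmpn S := by
  classical
  refine le_iInf₂ fun k ⟨P, hP, hk⟩ => ?_
  by_contra hlt
  have h1 : ((k - 1 + 1 : ℕ) : ℕ∞) + 1 ≤ c := by
    rcases k with _ | k
    · exact hc
    · exact Order.add_one_le_of_lt (not_le.1 hlt)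
  have hf' : Continuous fun s => (f s).1 := continuous_subtype_val.comp hf
  refine no_clopen_system hP (hk.mono (k' := k - 1 + 1) (by omega)) (X := ℝ)
    (fun i x => {s | (f s).1 (.pt _ i x) = true}) (fun z => {s | (f s).1 (.st _ z) = true})
    (fun i x => (isClopen_coord _ _).preimage hf') (fun z => (isClopen_coord _ _).preimage hf')
    fun x z => ⟨?_, fun hx => ?_⟩
  · rintro ⟨s, h2, h3⟩
    by_contra hx
    refine (f s).2 _ (Or.inr (Or.inr ⟨_, x, z, h1, hx, rfl⟩)) ?_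
    rintro _ (rfl | ⟨i, rfl⟩)
    exacts [h2, h3 i]
  · obtain ⟨s, hs⟩ := hs ⟨_, tup_mem h1 hx⟩
    refine ⟨s, ?_, fun i => ?_⟩
    · change (f s).1 _ = true
      rw [hs]
      exact decide_eq_true (Or.inl rfl)
    · change (f s).1 _ = true
      rw [hs]
      exact decide_eq_true (Or.inr ⟨i, rfl⟩)

theorem IsBinary.isAry {S : Type u} {P : Set (Set S)} (h : IsBinary P) : IsAry 2 P :=
  fun L hL hF => h L hL fun A hA B hB => by
    have h1 := hF {A, B} (by rintro _ (rfl | rfl); exacts [hA, hB])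
      ((encard_insert_le _ _).trans (by rw [encard_singleton]; rfl))
    rwa [sInter_pair] at h1

theorem nonempty_avoid (c : ℕ∞) : Nonempty (Avoid (Bad c)) := by
  refine ⟨⟨fun _ => false, ?_⟩⟩
  rintro T (⟨γ, -, rfl⟩ | ⟨γ, δ, -, rfl⟩ | ⟨k, x, z, -, -, rfl⟩) h
  · exact Bool.false_ne_true (h γ rfl)
  · exact Bool.false_ne_true (h γ (Or.inl rfl))
  · exact Bool.false_ne_true (h _ (Or.inl rfl))

theorem main (c : ℕ∞) (hc : 3 ≤ c) : ∃ (K : Type) (_ : TopologicalSpace K), Nonempty K ∧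
    CompactSpace K ∧ T2Space K ∧ IsUniformEberlein K ∧ ¬ IsSuperadic.{u} K ∧ cmpn K = c ∧
      ∀ (S : Type u) [TopologicalSpace S] (f : S → K), Continuous f → Function.Surjective f →
        c ≤ cmpn S := by
  have h2 : 2 ≤ c := le_trans (by norm_num) hc
  refine ⟨Avoid (Bad c), inferInstance, nonempty_avoid c,
    isCompact_iff_compactSpace.1 (isClosed_avoid (bad_finite c)).isCompact, inferInstance,
    isUniformEberlein_avoid c, ?_, (cmpn_avoid_le h2).antisymm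
      (le_cmpn_of_surjective h2 continuous_id Function.surjective_id),
    fun S _ f hf hs => le_cmpn_of_surjective h2 hf hs⟩
  rintro ⟨S, _, -, ⟨P, hP, hB⟩, f, hf, hs⟩
  have h3 := hc.trans ((le_cmpn_of_surjective h2 hf hs).trans (cmpn_le hP hB.isAry))
  norm_num at h3

end Pool.Agent.Lib.MP_0256c3_gt
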